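import Pool.Agent.V1171.RH.Main

set_option autoImplicit false

open Set Metric Filter Topology Pool.Agent.V1171.Kob Pool.Agent.V1171.RH

namespace Pool.Agent.Results.MP_3c459d_an.LowerBoundFails

/-- There are a (bounded) pseudoconvex Reinhardt domain `D ⊂ ℂ³`, a boundary point `ζ` of `D` all
of whose coordinates are nonzero, and points `z k ∈ D` converging to `ζ` along which
`k_D(z₀, z k) + ½ log d_D(z k) → -∞`, for every base point `z₀ ∈ D`. -/
theorem result : ∃ D : Set (Fin 3 → ℂ), IsOpen D ∧ IsConnected D ∧ Bornology.IsBounded D ∧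
    IsPseudoconvex D ∧ IsReinhardt D ∧
    ∃ ζ ∈ frontier D, (∀ i, ζ i ≠ 0) ∧
      ∃ z : ℕ → Fin 3 → ℂ, (∀ k, z k ∈ D ∧ 0 < bdist D (z k)) ∧ Tendsto z atTop (𝓝 ζ) ∧
        ∀ z₀ ∈ D, Tendsto (fun k => kob D z₀ (z k) + 1 / 2 * Real.log (bdist D (z k)))
          atTop atBot := by
  obtain ⟨D, h1, h2, h3, h4, h5, h6, z, h7, h8, h9⟩ := main
  exact ⟨D, h1, h2, h3, h4, h5, fun _ => 1, h6, fun _ => one_ne_zero, z, h7, h8, h9⟩

end Pool.Agent.Results.MP_3c459d_an.LowerBoundFails
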